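import Pool.Agent.Run7.h465.ST.Hard
import Pool.Agent.H642R2.TMSim

/-!
# The unweighted red-blue s-t cut problem in undirected graphs is NP-complete

Given an undirected graph whose edges are red or blue, two distinct vertices `s`, `t` and bounds
`r`, `b`, is there a set `X` of vertices with `s ∈ X`, `t ∉ X` such that at most `r` red and at most
`b` blue edges join `X` to its complement?

The reduction is from clique (independent set in the complement) in a graph `H` on `n` vertices.
Join `s` to every vertex of `H` by a red edge, colour the edges of `H` blue, and join every vertex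
`u` of `H` to `t` by `2 n - deg u` blue paths of length two. If `S` is the set of the vertices of `H`
in `X`, then `n - |S|` red edges are cut, and the least number of blue edges cut is
`2 n |S| - 2 e(S) ≥ |S| (2 n + 1 - |S|)`, with equality only for cliques. The right hand side is
increasing in `|S| ≤ n`. So the bounds `n - k` and `k (2 n + 1 - k)` can be met if and only if `H`
has a clique of size `k`.
-/

namespace Pool.Agent.Results.MP_ad21dd_lc.RedBlueStCutNPComplete

open Pool.Agent.H38.NP Pool.Agent.Run7.h465.ST

/-- An NP-complete language is in P if and only if P = NP. -/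
theorem inP_iff {L : Set (List Bool)} (h : NPComplete L) : InP L ↔ ∀ A, InNP A → InP A := by
  constructor
  · rintro ⟨V, hV, hV'⟩ A hA
    obtain ⟨f, hf, hf'⟩ := h.2 A hA
    exact ⟨fun x => V (f x), Pool.Agent.H642R2.TMSim.polyTime_comp hV hf,
      fun x => (hf' x).trans (hV' _)⟩
  · intro hP
    exact hP L h.1

/-- **The unweighted undirected red-blue s-t cut problem is NP-complete**, both for graphs in which
loops and parallel edges are allowed and for simple graphs; so each of the two versions is solvable
in polynomial time if and only if P = NP. -/
theorem result :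
    (NPComplete (lang fun I : Inst => IsGraph I ∧ HasCut I) ∧
      NPComplete (lang fun I : Inst => IsSimple I ∧ HasCut I)) ∧
    (InP (lang fun I : Inst => IsGraph I ∧ HasCut I) ↔ ∀ A, InNP A → InP A) ∧
    (InP (lang fun I : Inst => IsSimple I ∧ HasCut I) ↔ ∀ A, InNP A → InP A) := by
  have h1 : NPComplete (lang fun I : Inst => IsGraph I ∧ HasCut I) :=
    ⟨inNP_graph, nph.npHard fun I hI => ⟨fun h => ⟨hI.1, h⟩, fun h => h.2⟩⟩
  have h2 : NPComplete (lang fun I : Inst => IsSimple I ∧ HasCut I) :=
    ⟨inNP_simple, nph.npHard fun I hI => ⟨fun h => ⟨hI, h⟩, fun h => h.2⟩⟩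
  exact ⟨⟨h1, h2⟩, inP_iff h1, inP_iff h2⟩

end Pool.Agent.Results.MP_ad21dd_lc.RedBlueStCutNPComplete
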